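import Mathlib

/-!
# Spaces admitting positive refinement expansive homeomorphisms

A `T₁` space which admits a positive refinement expansive homeomorphism is finite.
-/

set_option autoImplicit false

open Set

namespace Pool.Agent.Results.MP_b50e26_gt.FiniteSpace

/-- `A ≺ C`: the set `A` is contained in some member of `C`. -/
def Prec {X : Type*} (A : Set X) (C : Set (Set X)) : Prop := ∃ c ∈ C, A ⊆ c

/-- `C` is an open cover of the space `X`. -/
def IsOpenCover' {X : Type*} [TopologicalSpace X] (C : Set (Set X)) : Prop :=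
  (∀ c ∈ C, IsOpen c) ∧ ⋃₀ C = univ

/-- The homeomorphism `f` is positive refinement expansive: there is a finite open cover
`U 1, ..., U n` such that for every open cover `V` and every sequence `k : ℕ → {1, ..., n}` there
is `N` with `⋂_{j = 0}^{N} f^{-j}(U (k j)) ≺ V`. -/
def PositiveRefinementExpansive {X : Type*} [TopologicalSpace X] (f : X ≃ₜ X) : Prop :=
  ∃ (n : ℕ) (U : Fin n → Set X), IsOpenCover' (range U) ∧
    ∀ V : Set (Set X), IsOpenCover' V → ∀ k : ℕ → Fin n, ∃ N : ℕ,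
      Prec (⋂ j ∈ Finset.range (N + 1), (f : X → X)^[j] ⁻¹' U (k j)) V

/-- the sets of the cover `U^N` -/
def Cyl {X : Type*} (f : X → X) {n : ℕ} (U : Fin n → Set X) (N : ℕ) (k : ℕ → Fin n) : Set X :=
  ⋂ j ∈ Finset.range (N + 1), f^[j] ⁻¹' U (k j)

theorem mem_Cyl {X : Type*} {f : X → X} {n : ℕ} {U : Fin n → Set X} {N : ℕ} {k : ℕ → Fin n}
    {x : X} : x ∈ Cyl f U N k ↔ ∀ j ≤ N, f^[j] x ∈ U (k j) := by
  simp [Cyl]

/-- a uniform `N` exists for each cover -/
theorem uniform {X : Type*} [TopologicalSpace X] {f : X → X} {n : ℕ} {U : Fin n → Set X}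
    {V : Set (Set X)} (h : ∀ k : ℕ → Fin n, ∃ N : ℕ, Prec (Cyl f U N k) V) :
    ∃ N : ℕ, ∀ k : ℕ → Fin n, Prec (Cyl f U N k) V := by
  choose N hN using h
  have hopen : ∀ k : ℕ → Fin n, IsOpen {k' : ℕ → Fin n | ∀ j ∈ Finset.range (N k + 1), k' j = k j} := by
    intro k
    have : {k' : ℕ → Fin n | ∀ j ∈ Finset.range (N k + 1), k' j = k j} =
        ⋂ j ∈ Finset.range (N k + 1), {k' : ℕ → Fin n | k' j = k j} := by
      ext; simp
    rw [this]
    refine isOpen_biInter_finset fun j _ => ?_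
    have h1 : IsOpen ((fun k' : ℕ → Fin n => k' j) ⁻¹' {k j}) :=
      (isOpen_discrete ({k j} : Set (Fin n))).preimage (continuous_apply j)
    exact h1
  obtain ⟨t, ht⟩ := isCompact_univ.elim_finite_subcover
    (fun k : ℕ → Fin n => {k' : ℕ → Fin n | ∀ j ∈ Finset.range (N k + 1), k' j = k j}) hopen
    (fun k _ => mem_iUnion.2 ⟨k, fun _ _ => rfl⟩)
  refine ⟨t.sup N, fun k => ?_⟩
  obtain ⟨k₀, hk₀⟩ := mem_iUnion.1 (ht (mem_univ k))
  obtain ⟨hk₀t, hk⟩ := mem_iUnion.1 hk₀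
  obtain ⟨v, hv, hsub⟩ := hN k₀
  refine ⟨v, hv, fun x hx => hsub ?_⟩
  rw [mem_Cyl] at hx ⊢
  intro j hj
  have h1 : k j = k₀ j := hk j (Finset.mem_range.2 (Nat.lt_succ_of_le hj))
  rw [← h1]
  exact hx j (hj.trans (Finset.le_sup hk₀t))

/-- **Theorem.** A `T₁` space with a positive refinement expansive homeomorphism is finite. -/
theorem result {X : Type*} [TopologicalSpace X] [T1Space X] (f : X ≃ₜ X)
    (hf : PositiveRefinementExpansive f) : Finite X := by
  classical
  obtain ⟨n, U, hU, hf⟩ := hf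
  have hf' : ∀ V : Set (Set X), IsOpenCover' V → ∃ N : ℕ, ∀ k : ℕ → Fin n,
      Prec (Cyl f U N k) V := fun V hV => uniform (hf V hV)
  -- the cover `f(U)`
  have hfU : IsOpenCover' (range fun i => f '' U i) := by
    refine ⟨?_, ?_⟩
    · rintro _ ⟨i, rfl⟩
      exact f.isOpenMap _ (hU.1 _ ⟨i, rfl⟩)
    · refine eq_univ_of_forall fun x => ?_
      have hx : f.symm x ∈ ⋃₀ range U := by rw [hU.2]; trivial
      obtain ⟨_, ⟨i, rfl⟩, hi⟩ := hx
      exact ⟨_, ⟨i, rfl⟩, f.symm x, hi, f.apply_symm_apply x⟩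
  obtain ⟨N, hN⟩ := hf' _ hfU
  -- `W` refines `f(W)`
  have step : ∀ k : ℕ → Fin n, ∃ k' : ℕ → Fin n, ∀ x, f x ∈ Cyl f U N k → x ∈ Cyl f U N k' := by
    intro k
    obtain ⟨_, ⟨i, rfl⟩, hi⟩ := hN k
    refine ⟨fun j => Nat.casesOn j i k, fun x hx => ?_⟩
    obtain ⟨y, hy, hyx⟩ := hi hx
    have hyx' : y = x := f.injective hyx
    subst hyx'
    rw [mem_Cyl] at hx ⊢
    intro j hj
    cases j with
    | zero => exact hy
    | succ j =>
      have := hx j (by omega)
      rwa [← Function.iterate_succ_apply] at this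
  have steps : ∀ (m : ℕ) (k : ℕ → Fin n), ∃ k' : ℕ → Fin n, ∀ x,
      (f : X → X)^[m] x ∈ Cyl f U N k → x ∈ Cyl f U N k' := by
    intro m
    induction m with
    | zero => exact fun k => ⟨k, fun x hx => hx⟩
    | succ m ih =>
      intro k
      obtain ⟨k₁, hk₁⟩ := step k
      obtain ⟨k₂, hk₂⟩ := ih k₁
      refine ⟨k₂, fun x hx => hk₂ x (hk₁ _ ?_)⟩
      rwa [Function.iterate_succ_apply'] at hx
  -- every open cover is refined by some `f^{-m}(W)`
  have refine_all : ∀ V : Set (Set X), IsOpenCover' V → ∃ m : ℕ, ∀ k : ℕ → Fin n,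
      Prec ((f : X → X)^[m] ⁻¹' Cyl f U N k) V := by
    intro V hV
    obtain ⟨M, hM⟩ := hf' V hV
    refine ⟨M, fun k => ?_⟩
    have hj : ∀ j : ℕ, ∃ i : Fin n, j ≤ M → ∀ x, (f : X → X)^[M] x ∈ Cyl f U N k →
        (f : X → X)^[j] x ∈ U i := by
      intro j
      obtain ⟨k', hk'⟩ := steps (M - j) k
      refine ⟨k' 0, fun hjM x hx => ?_⟩
      have h1 : (f : X → X)^[j] x ∈ Cyl f U N k' := by
        apply hk'
        rw [← Function.iterate_add_apply, Nat.sub_add_cancel hjM]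
        exact hx
      exact mem_Cyl.1 h1 0 (Nat.zero_le _)
    choose i hi using hj
    obtain ⟨v, hv, hsub⟩ := hM i
    refine ⟨v, hv, fun x hx => hsub (mem_Cyl.2 fun j hj => hi j hj x hx)⟩
  -- the cover `W` is finite
  have hfin : (range (Cyl f U N)).Finite := by
    have : range (Cyl (f : X → X) U N) ⊆ range (fun w : Fin (N + 1) → Fin n =>
        ⋂ j : Fin (N + 1), (f : X → X)^[(j : ℕ)] ⁻¹' U (w j)) := by
      rintro _ ⟨k, rfl⟩
      refine ⟨fun j => k j, ?_⟩
      ext x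
      rw [mem_Cyl]
      simp only [mem_iInter, mem_preimage]
      exact ⟨fun h j hj => h ⟨j, Nat.lt_succ_of_le hj⟩, fun h j => h j (Nat.lt_succ_iff.1 j.2)⟩
    exact (finite_range _).subset this
  -- the cylinders cover
  have hcov : ∀ x, ∃ k : ℕ → Fin n, x ∈ Cyl f U N k := by
    intro x
    have : ∀ j : ℕ, ∃ i : Fin n, (f : X → X)^[j] x ∈ U i := by
      intro j
      have hx : (f : X → X)^[j] x ∈ ⋃₀ range U := by rw [hU.2]; trivial
      obtain ⟨_, ⟨i, rfl⟩, hi⟩ := hx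
      exact ⟨i, hi⟩
    choose k hk using this
    exact ⟨k, mem_Cyl.2 fun j _ => hk j⟩
  by_contra hinf
  rw [not_finite_iff_infinite] at hinf
  obtain ⟨s, hs⟩ := Infinite.exists_subset_card_eq X (hfin.toFinset.card + 1)
  -- the cover by the sets `(s \ {x})ᶜ`
  have hVc : IsOpenCover' (range fun x : s => ((s : Set X) \ {(x : X)})ᶜ) := by
    refine ⟨?_, ?_⟩
    · rintro _ ⟨x, rfl⟩
      exact ((s.finite_toSet.subset sdiff_subset).isClosed).isOpen_compl
    · refine eq_univ_of_forall fun y => ?_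
      by_cases hy : y ∈ s
      · exact ⟨_, ⟨⟨y, hy⟩, rfl⟩, fun h => h.2 rfl⟩
      · have hne : s.Nonempty := by
          rw [← Finset.card_pos, hs]; omega
        obtain ⟨x, hx⟩ := hne
        exact ⟨_, ⟨⟨x, hx⟩, rfl⟩, fun h => hy h.1⟩
  obtain ⟨m, hm⟩ := refine_all _ hVc
  have hw : ∀ x : X, ∃ k : ℕ → Fin n, (f : X → X)^[m] x ∈ Cyl f U N k := fun x => hcov _
  choose w hw using hw
  have hinj : Set.InjOn (fun x => Cyl f U N (w x)) (s : Set X) := by
    intro x hx y hy hxy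
    obtain ⟨_, ⟨z, rfl⟩, hz⟩ := hm (w x)
    have hxz : x ∉ (s : Set X) \ {(z : X)} := hz (hw x)
    have hyz : y ∉ (s : Set X) \ {(z : X)} := by
      apply hz
      have : (f : X → X)^[m] y ∈ Cyl f U N (w y) := hw y
      simp only at hxy
      rw [← hxy] at this
      exact this
    have h1 : x = z := by
      by_contra h
      exact hxz ⟨hx, h⟩
    have h2 : y = z := by
      by_contra h
      exact hyz ⟨hy, h⟩
    rw [h1, h2]
  have hcard : s.card ≤ hfin.toFinset.card := by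
    refine Finset.card_le_card_of_injOn (fun x => Cyl f U N (w x)) (fun x _ => ?_) hinj
    simp
  omega

end Pool.Agent.Results.MP_b50e26_gt.FiniteSpace
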